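import Mathlib

/-!
# Convolution recursions whose d-th roots are not eventually increasing
-/

set_option autoImplicit false

namespace Pool.Agent.Results.MP_0f9b8a_co.ParityEffect

open Finset Filter Topology

/-- The value at the pair `(a, b)` of natural numbers of the rational function `p / q`. -/
noncomputable def val (p q : MvPolynomial (Fin 2) ℚ) (a b : ℕ) : ℝ :=
  ((MvPolynomial.eval ![(a : ℚ), (b : ℚ)] p / MvPolynomial.eval ![(a : ℚ), (b : ℚ)] q : ℚ) : ℝ)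

/-- `p / q` is an admissible rational function: the denominator has no zero at a pair of positive
integers, the values at such pairs are positive, and for some `k > 0` the quotient of the value
by `(a b / (a + b)) ^ k` has a positive limit as `a` and `b` both tend to infinity. -/
def Admissible (p q : MvPolynomial (Fin 2) ℚ) : Prop :=
  (∀ a b : ℕ, 1 ≤ a → 1 ≤ b → MvPolynomial.eval ![(a : ℚ), (b : ℚ)] q ≠ 0) ∧
  (∀ a b : ℕ, 1 ≤ a → 1 ≤ b → 0 < val p q a b) ∧
  ∃ k : ℝ, 0 < k ∧ ∃ L : ℝ, 0 < L ∧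
    Tendsto (fun x : ℕ × ℕ =>
      val p q x.1 x.2 / (((x.1 : ℝ) * (x.2 : ℝ) / ((x.1 : ℝ) + (x.2 : ℝ))) ^ k))
      (atTop ×ˢ atTop) (𝓝 L)

/-- `n` satisfies the convolution recursion with coefficients `f`:
`n d` is the sum of `f d₁ d₂ * n d₁ * n d₂` over `d₁ + d₂ = d`, `d₁, d₂ ≥ 1`, for `d ≥ 2`. -/
def Recursion (f : ℕ → ℕ → ℝ) (n : ℕ → ℝ) : Prop :=
  ∀ d, 2 ≤ d → n d = ∑ i ∈ Ico 1 d, f i (d - i) * n i * n (d - i)

/-! ### The coefficients -/

/-- the polynomial `P` -/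
noncomputable def P (b : ℝ) : ℝ := 10 ^ 13 * (b * (b + 1)) ^ 6

/-- the coefficients -/
noncomputable def g (a b : ℝ) : ℝ := a * b / (a + b) + P b / (1 + (a - 2) ^ 2 * (2 * P b - 1))

/-- the growth function -/
noncomputable def phi (d : ℕ) : ℝ := ((d - 1).factorial : ℝ) ^ 6 * (10 ^ 13) ^ ((d - 1) / 2)

lemma P_ge {b : ℝ} (hb : 1 ≤ b) : 1 ≤ P b := by
  unfold P
  have h1 : (1 : ℝ) ≤ b * (b + 1) := by nlinarith
  have h2 : (1 : ℝ) ≤ (b * (b + 1)) ^ 6 := one_le_pow₀ h1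
  nlinarith

lemma den_pos (a : ℝ) {b : ℝ} (hb : 1 ≤ b) : 1 ≤ 1 + (a - 2) ^ 2 * (2 * P b - 1) := by
  have := P_ge hb
  have : 0 ≤ (a - 2) ^ 2 * (2 * P b - 1) := mul_nonneg (sq_nonneg _) (by linarith)
  linarith

lemma g_pos {a b : ℝ} (ha : 1 ≤ a) (hb : 1 ≤ b) : 0 < g a b := by
  unfold g
  have h1 := P_ge hb
  have h2 := den_pos a hb
  have h3 : 0 < a * b / (a + b) := by positivity
  have h4 : 0 < P b / (1 + (a - 2) ^ 2 * (2 * P b - 1)) := div_pos (by linarith) (by linarith)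
  linarith

lemma g_two (b : ℝ) : g 2 b = 2 * b / (2 + b) + P b := by
  unfold g
  norm_num

lemma g_one_one : g 1 1 = 1 := by
  unfold g P
  norm_num

lemma extra_le {a b : ℝ} (hb : 1 ≤ b) (ha : 1 ≤ (a - 2) ^ 2) :
    P b / (1 + (a - 2) ^ 2 * (2 * P b - 1)) ≤ 1 / (a - 2) ^ 2 := by
  have h1 := P_ge hb
  have h2 := den_pos a hb
  rw [div_le_div_iff₀ (by linarith) (by linarith)]
  nlinarith

lemma extra_le_half {a b : ℝ} (hb : 1 ≤ b) (ha : 1 ≤ (a - 2) ^ 2) :
    P b / (1 + (a - 2) ^ 2 * (2 * P b - 1)) ≤ 1 / 2 := by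
  have h1 := P_ge hb
  have h2 := den_pos a hb
  rw [div_le_div_iff₀ (by linarith) (by linarith)]
  nlinarith

lemma g_le {a b : ℝ} (hb : 1 ≤ b) (ha : 1 ≤ (a - 2) ^ 2) : g a b ≤ a * b / (a + b) + 1 / 2 := by
  unfold g
  have := extra_le_half hb ha
  linarith

/-! ### phi -/

lemma phi_pos (d : ℕ) : 0 < phi d := by
  unfold phi
  positivity

lemma phi_one : phi 1 = 1 := by simp [phi]

lemma phi_two : phi 2 = 1 := by simp [phi]

lemma phi_step (d : ℕ) (hd : 1 ≤ d) : phi (d + 2) = P d * phi d := by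
  obtain ⟨e, rfl⟩ : ∃ e, d = e + 1 := ⟨d - 1, by omega⟩
  unfold phi P
  have h1 : e + 1 + 2 - 1 = e + 2 := by omega
  have h2 : e + 1 - 1 = e := by omega
  have h3 : (e + 2) / 2 = e / 2 + 1 := by omega
  rw [h1, h2, h3, Nat.factorial_succ, Nat.factorial_succ, pow_succ]
  push_cast
  ring

lemma phi_mul_le (i j : ℕ) (hi : 1 ≤ i) (hj : 1 ≤ j) :
    phi i * phi j * ((i + j : ℕ) - 1 : ℝ) ^ 6 ≤ phi (i + j) := by
  obtain ⟨a, rfl⟩ : ∃ a, i = a + 1 := ⟨i - 1, by omega⟩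
  obtain ⟨b, rfl⟩ : ∃ b, j = b + 1 := ⟨j - 1, by omega⟩
  unfold phi
  have h1 : a + 1 - 1 = a := by omega
  have h2 : b + 1 - 1 = b := by omega
  have h3 : a + 1 + (b + 1) - 1 = (a + b) + 1 := by omega
  rw [h1, h2, h3, Nat.factorial_succ]
  have h4 : ((a.factorial * b.factorial : ℕ) : ℝ) ≤ ((a + b).factorial : ℕ) := by
    exact_mod_cast Nat.le_of_dvd (Nat.factorial_pos _) (Nat.factorial_mul_factorial_dvd_factorial_add a b)
  have h5 : ((10 : ℝ) ^ 13) ^ (a / 2) * ((10 : ℝ) ^ 13) ^ (b / 2) ≤ ((10 : ℝ) ^ 13) ^ ((a + b + 1) / 2) := by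
    rw [← pow_add]
    apply pow_le_pow_right₀ (by norm_num)
    omega
  have h6 : ((a + 1 + (b + 1) : ℕ) - 1 : ℝ) = (a + b + 1 : ℕ) := by push_cast; ring
  rw [h6]
  have h7 : ((a.factorial : ℝ) * b.factorial) ^ 6 ≤ ((a + b).factorial : ℝ) ^ 6 := by
    apply pow_le_pow_left₀ (by positivity)
    exact_mod_cast h4
  calc (a.factorial : ℝ) ^ 6 * (10 ^ 13) ^ (a / 2) * ((b.factorial : ℝ) ^ 6 * (10 ^ 13) ^ (b / 2)) *
        ((a + b + 1 : ℕ) : ℝ) ^ 6
      = ((a + b + 1 : ℕ) : ℝ) ^ 6 * (((a.factorial : ℝ) * b.factorial) ^ 6 *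
          ((10 ^ 13) ^ (a / 2) * (10 ^ 13) ^ (b / 2))) := by ring
    _ ≤ ((a + b + 1 : ℕ) : ℝ) ^ 6 * (((a + b).factorial : ℝ) ^ 6 * (10 ^ 13) ^ ((a + b + 1) / 2)) := by
        gcongr
    _ = _ := by
        push_cast
        ring

/-! ### The sequence -/

/-- the sequence -/
noncomputable def seq : ℕ → ℝ
  | 0 => 0
  | 1 => 1
  | (d + 2) => ∑ i : Fin (d + 1), g ((i : ℕ) + 1 : ℕ) ((d + 1 - i : ℕ) : ℕ) * seq (i + 1) *
      seq (d + 1 - i)
  decreasing_by
    · have := i.2; omega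
    · have := i.2; omega

lemma seq_one : seq 1 = 1 := by rw [seq]

lemma seq_rec (d : ℕ) (hd : 2 ≤ d) :
    seq d = ∑ i ∈ Ico 1 d, g (i : ℝ) ((d - i : ℕ) : ℝ) * seq i * seq (d - i) := by
  obtain ⟨e, rfl⟩ : ∃ e, d = e + 2 := ⟨d - 2, by omega⟩
  rw [seq, Finset.sum_Ico_eq_sum_range, ← Fin.sum_univ_eq_sum_range (fun i =>
    g ((1 + i : ℕ) : ℝ) ((e + 2 - (1 + i) : ℕ) : ℝ) * seq (1 + i) * seq (e + 2 - (1 + i)))]
  have h : e + 2 - 1 = e + 1 := by omega
  rw [h]
  refine Finset.sum_congr rfl fun i _ => ?_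
  have h1 : e + 2 - (1 + (i : ℕ)) = e + 1 - i := by omega
  rw [h1, Nat.add_comm 1 (i : ℕ)]

lemma seq_nonneg : ∀ d, 0 ≤ seq d := by
  intro d
  induction d using Nat.strong_induction_on with
  | _ d ih =>
    rcases Nat.lt_or_ge d 2 with h | h
    · interval_cases d
      · rw [seq]
      · rw [seq_one]; norm_num
    · rw [seq_rec d h]
      refine Finset.sum_nonneg fun i hi => ?_
      rw [Finset.mem_Ico] at hi
      have h1 : (1 : ℝ) ≤ (i : ℝ) := by exact_mod_cast hi.1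
      have h2 : (1 : ℝ) ≤ ((d - i : ℕ) : ℝ) := by
        have : 1 ≤ d - i := by omega
        exact_mod_cast this
      exact mul_nonneg (mul_nonneg (g_pos h1 h2).le (ih i hi.2)) (ih _ (by omega))

lemma seq_two : seq 2 = 1 := by
  rw [seq_rec 2 le_rfl]
  have : Ico 1 2 = {1} := by decide
  rw [this, Finset.sum_singleton]
  norm_num
  rw [g_one_one, seq_one]
  norm_num

lemma phi_le_seq : ∀ d, 1 ≤ d → phi d ≤ seq d := by
  intro d
  induction d using Nat.strong_induction_on with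
  | _ d ih =>
    intro hd
    rcases Nat.lt_or_ge d 3 with h | h
    · interval_cases d
      · rw [phi_one, seq_one]
      · rw [phi_two, seq_two]
    · obtain ⟨e, rfl⟩ : ∃ e, d = e + 2 := ⟨d - 2, by omega⟩
      have he : 1 ≤ e := by omega
      have he' : (1 : ℝ) ≤ (e : ℝ) := by exact_mod_cast he
      rw [phi_step e he, seq_rec (e + 2) (by omega)]
      have h2 : (2 : ℕ) ∈ Ico 1 (e + 2) := by
        rw [Finset.mem_Ico]; omega
      have h3 : g ((2 : ℕ) : ℝ) ((e + 2 - 2 : ℕ) : ℝ) * seq 2 * seq (e + 2 - 2) ≤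
          ∑ i ∈ Ico 1 (e + 2), g (i : ℝ) ((e + 2 - i : ℕ) : ℝ) * seq i * seq (e + 2 - i) := by
        refine Finset.single_le_sum (f := fun i : ℕ =>
          g (i : ℝ) ((e + 2 - i : ℕ) : ℝ) * seq i * seq (e + 2 - i)) ?_ h2
        intro i hi
        rw [Finset.mem_Ico] at hi
        have h1 : (1 : ℝ) ≤ (i : ℝ) := by exact_mod_cast hi.1
        have h2 : (1 : ℝ) ≤ ((e + 2 - i : ℕ) : ℝ) := by
          have : 1 ≤ e + 2 - i := by omega
          exact_mod_cast this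
        exact mul_nonneg (mul_nonneg (g_pos h1 h2).le (seq_nonneg i)) (seq_nonneg _)
      refine le_trans ?_ h3
      have h4 : e + 2 - 2 = e := by omega
      rw [h4, seq_two, mul_one]
      push_cast
      rw [g_two]
      have h5 := P_ge he'
      have h6 := ih e (by omega) he
      have h7 : 0 ≤ 2 * (e : ℝ) / (2 + e) := by positivity
      have h8 := phi_pos e
      nlinarith [mul_nonneg h7 (seq_nonneg e), mul_le_mul_of_nonneg_left h6 (by linarith : (0 : ℝ) ≤ P e)]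

lemma seq_le : ∀ d, 1 ≤ d → seq d ≤ (2 - 1 / (d : ℝ)) * phi d := by
  intro d
  induction d using Nat.strong_induction_on with
  | _ d ih =>
    intro hd
    rcases Nat.lt_or_ge d 3 with h | h
    · interval_cases d
      · rw [phi_one, seq_one]; norm_num
      · rw [phi_two, seq_two]; norm_num
    · obtain ⟨e, rfl⟩ : ∃ e, d = e + 2 := ⟨d - 2, by omega⟩
      have he : 1 ≤ e := by omega
      have he' : (1 : ℝ) ≤ (e : ℝ) := by exact_mod_cast he
      have hmain : ∀ i ∈ Ico 1 (e + 2),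
          g (i : ℝ) ((e + 2 - i : ℕ) : ℝ) * seq i * seq (e + 2 - i) ≤
            ((e : ℝ) + 4) / ((e : ℝ) + 1) ^ 6 * phi (e + 2) +
              (if i = 2 then P e * seq e else 0) := by
        intro i hi
        rw [Finset.mem_Ico] at hi
        have hi1 : (1 : ℝ) ≤ (i : ℝ) := by exact_mod_cast hi.1
        have hj : 1 ≤ e + 2 - i := by omega
        have hj1 : (1 : ℝ) ≤ ((e + 2 - i : ℕ) : ℝ) := by exact_mod_cast hj
        have hs1 : seq i ≤ 2 * phi i := by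
          have h1 := ih i (by omega) hi.1
          have h2 : (2 - 1 / (i : ℝ)) * phi i ≤ 2 * phi i := by
            have := phi_pos i
            have h3 : 0 ≤ 1 / (i : ℝ) := by positivity
            nlinarith
          linarith
        have hs2 : seq (e + 2 - i) ≤ 2 * phi (e + 2 - i) := by
          have h1 := ih (e + 2 - i) (by omega) hj
          have h2 : (2 - 1 / ((e + 2 - i : ℕ) : ℝ)) * phi (e + 2 - i) ≤ 2 * phi (e + 2 - i) := by
            have := phi_pos (e + 2 - i)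
            have h3 : 0 ≤ 1 / ((e + 2 - i : ℕ) : ℝ) := by positivity
            nlinarith
          linarith
        have hprod : seq i * seq (e + 2 - i) ≤ 4 * (phi i * phi (e + 2 - i)) := by
          have := mul_le_mul hs1 hs2 (seq_nonneg _) (by have := phi_pos i; linarith)
          linarith
        have hphi := phi_mul_le i (e + 2 - i) hi.1 hj
        have hsum : i + (e + 2 - i) = e + 2 := by omega
        rw [hsum] at hphi
        have hcast : ((e + 2 : ℕ) - 1 : ℝ) = (e : ℝ) + 1 := by push_cast; ring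
        rw [hcast] at hphi
        have hquot : (i : ℝ) * ((e + 2 - i : ℕ) : ℝ) / ((i : ℝ) + ((e + 2 - i : ℕ) : ℝ)) ≤
            ((e : ℝ) + 2) / 4 := by
          have hs : (i : ℝ) + ((e + 2 - i : ℕ) : ℝ) = (e : ℝ) + 2 := by
            have : ((i + (e + 2 - i) : ℕ) : ℝ) = ((e + 2 : ℕ) : ℝ) := by rw [hsum]
            push_cast at this
            linarith
          rw [hs, div_le_div_iff₀ (by linarith) (by norm_num)]
          nlinarith [sq_nonneg ((i : ℝ) - ((e + 2 - i : ℕ) : ℝ))]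
        have hbase : ((i : ℝ) * ((e + 2 - i : ℕ) : ℝ) / ((i : ℝ) + ((e + 2 - i : ℕ) : ℝ)) + 1 / 2) *
            (seq i * seq (e + 2 - i)) ≤ ((e : ℝ) + 4) / ((e : ℝ) + 1) ^ 6 * phi (e + 2) := by
          have h1 : phi i * phi (e + 2 - i) ≤ phi (e + 2) / ((e : ℝ) + 1) ^ 6 := by
            rw [le_div_iff₀ (by positivity)]
            exact hphi
          have h2 : 0 ≤ seq i * seq (e + 2 - i) := mul_nonneg (seq_nonneg _) (seq_nonneg _)
          have h3 : 0 ≤ phi (e + 2) / ((e : ℝ) + 1) ^ 6 := by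
            have := phi_pos (e + 2)
            positivity
          calc _ ≤ (((e : ℝ) + 2) / 4 + 1 / 2) * (seq i * seq (e + 2 - i)) := by
                apply mul_le_mul_of_nonneg_right _ h2
                linarith
            _ ≤ (((e : ℝ) + 2) / 4 + 1 / 2) * (4 * (phi (e + 2) / ((e : ℝ) + 1) ^ 6)) := by
                apply mul_le_mul_of_nonneg_left _ (by positivity)
                linarith
            _ = _ := by ring
        by_cases h2 : i = 2
        · subst h2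
          rw [if_pos rfl]
          have h4 : e + 2 - 2 = e := by omega
          rw [h4] at hbase ⊢
          rw [seq_two] at hbase ⊢
          push_cast at hbase ⊢
          rw [g_two]
          have h5 : 0 ≤ seq e := seq_nonneg e
          nlinarith
        · rw [if_neg h2, add_zero]
          have hsq : (1 : ℝ) ≤ ((i : ℝ) - 2) ^ 2 := by
            rcases Nat.lt_or_ge i 2 with h3 | h3
            · have : i = 1 := by omega
              subst this
              norm_num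
            · have : 3 ≤ i := by omega
              have : (3 : ℝ) ≤ (i : ℝ) := by exact_mod_cast this
              nlinarith
          have hg := g_le (a := (i : ℝ)) hj1 hsq
          refine le_trans ?_ hbase
          rw [mul_assoc]
          exact mul_le_mul_of_nonneg_right hg (mul_nonneg (seq_nonneg _) (seq_nonneg _))
      rw [seq_rec (e + 2) (by omega)]
      have hsum := Finset.sum_le_sum hmain
      refine le_trans hsum ?_
      rw [Finset.sum_add_distrib, Finset.sum_const, Nat.card_Ico, Finset.sum_ite_eq' ,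
        if_pos (by rw [Finset.mem_Ico]; omega)]
      have h1 : e + 2 - 1 = e + 1 := by omega
      rw [h1, nsmul_eq_mul]
      push_cast
      have hphi := phi_step e he
      have hse := ih e (by omega) he
      have hP := P_ge he'
      have h2 : P e * seq e ≤ (2 - 1 / (e : ℝ)) * phi (e + 2) := by
        rw [hphi]
        nlinarith [mul_le_mul_of_nonneg_left hse (by linarith : (0 : ℝ) ≤ P e)]
      have h3 : ((e : ℝ) + 1) * (((e : ℝ) + 4) / ((e : ℝ) + 1) ^ 6 * phi (e + 2)) =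
          ((e : ℝ) + 4) / ((e : ℝ) + 1) ^ 5 * phi (e + 2) := by
        field_simp
      rw [h3]
      have h4 : ((e : ℝ) + 4) / ((e : ℝ) + 1) ^ 5 ≤ 1 / (e : ℝ) - 1 / ((e : ℝ) + 2) := by
        have : 1 / (e : ℝ) - 1 / ((e : ℝ) + 2) = 2 / ((e : ℝ) * (e + 2)) := by
          field_simp
          ring
        rw [this, div_le_div_iff₀ (by positivity) (by positivity)]
        have h5 : (e : ℝ) * (e + 2) ≤ ((e : ℝ) + 1) ^ 2 := by nlinarith
        have h6 : (e : ℝ) + 4 ≤ 2 * ((e : ℝ) + 1) ^ 3 := by nlinarith [sq_nonneg ((e : ℝ) + 1)]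
        calc ((e : ℝ) + 4) * ((e : ℝ) * (e + 2)) ≤ (2 * ((e : ℝ) + 1) ^ 3) * ((e : ℝ) + 1) ^ 2 := by
              gcongr
          _ = _ := by ring
      have h7 := phi_pos (e + 2)
      have h8 : ((e : ℝ) + 4) / ((e : ℝ) + 1) ^ 5 * phi (e + 2) ≤
          (1 / (e : ℝ) - 1 / ((e : ℝ) + 2)) * phi (e + 2) :=
        mul_le_mul_of_nonneg_right h4 h7.le
      calc _ ≤ (1 / (e : ℝ) - 1 / ((e : ℝ) + 2)) * phi (e + 2) + (2 - 1 / (e : ℝ)) * phi (e + 2) := by
            linarith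
        _ = _ := by ring

/-! ### Comparison of consecutive terms -/

lemma two_mul_add_one_le (j : ℕ) : (2 * j + 1 : ℝ) ≤ 3 ^ j := by
  induction j with
  | zero => norm_num
  | succ j ih =>
    push_cast
    rw [pow_succ]
    have : (1 : ℝ) ≤ 3 ^ j := one_le_pow₀ (by norm_num)
    linarith

lemma growth (j : ℕ) (hj : 1 ≤ j) :
    (2 * ((2 * j + 1 : ℕ) : ℝ) ^ 6) ^ (2 * j + 1) < phi (2 * j + 1) := by
  unfold phi
  have h1 : 2 * j + 1 - 1 = 2 * j := by omega
  have h2 : 2 * j / 2 = j := by omega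
  rw [h1, h2]
  set D : ℕ := 2 * j + 1 with hD
  have hD0 : (0 : ℝ) < (D : ℝ) := by
    have : 0 < D := by omega
    exact_mod_cast this
  have h3 : (D : ℝ) ^ D ≤ (D : ℝ) * ((2 * j).factorial : ℝ) * 3 ^ D := by
    have h := Real.pow_div_factorial_le_exp (D : ℝ) hD0.le D
    have he : Real.exp (D : ℝ) ≤ 3 ^ D := by
      have h4 : Real.exp (D : ℝ) = (Real.exp 1) ^ D := by
        rw [← Real.exp_nat_mul, mul_one]
      rw [h4]
      exact pow_le_pow_left₀ (Real.exp_pos 1).le (by have := Real.exp_one_lt_d9; linarith) D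
    have h5 : (D : ℝ) ^ D ≤ (D.factorial : ℝ) * 3 ^ D := by
      have hf : (0 : ℝ) < (D.factorial : ℝ) := by exact_mod_cast Nat.factorial_pos D
      rw [div_le_iff₀ hf] at h
      calc (D : ℝ) ^ D ≤ Real.exp D * D.factorial := h
        _ ≤ 3 ^ D * D.factorial := by gcongr
        _ = _ := by ring
    have h6 : (D.factorial : ℝ) = (D : ℝ) * ((2 * j).factorial : ℝ) := by
      rw [hD, Nat.factorial_succ]
      push_cast
      ring
    rwa [h6] at h5
  have h4 : (2 * (D : ℝ) ^ 6) ^ D ≤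
      2 ^ D * ((D : ℝ) * ((2 * j).factorial : ℝ) * 3 ^ D) ^ 6 := by
    rw [mul_pow, ← pow_mul, Nat.mul_comm 6 D, pow_mul]
    have : ((D : ℝ) ^ D) ^ 6 ≤ ((D : ℝ) * ((2 * j).factorial : ℝ) * 3 ^ D) ^ 6 :=
      pow_le_pow_left₀ (by positivity) h3 6
    exact mul_le_mul_of_nonneg_left this (by positivity)
  refine lt_of_le_of_lt h4 ?_
  have h5 : (2 : ℝ) ^ D * ((D : ℝ) * ((2 * j).factorial : ℝ) * 3 ^ D) ^ 6 =
      ((2 * j).factorial : ℝ) ^ 6 * ((D : ℝ) ^ 6 * (2 * 3 ^ 6) ^ D) := by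
    rw [mul_pow, mul_pow, mul_pow, ← pow_mul, ← pow_mul, Nat.mul_comm D 6]
    ring
  rw [h5]
  have hf : (0 : ℝ) < ((2 * j).factorial : ℝ) ^ 6 := by
    have : (0 : ℝ) < ((2 * j).factorial : ℝ) := by exact_mod_cast Nat.factorial_pos _
    positivity
  apply mul_lt_mul_of_pos_left _ hf
  have h6 : (D : ℝ) ≤ 3 ^ j := by
    rw [hD]
    push_cast
    exact two_mul_add_one_le j
  have h7 : (D : ℝ) ^ 6 ≤ (3 ^ 6) ^ j := by
    calc (D : ℝ) ^ 6 ≤ (3 ^ j) ^ 6 := pow_le_pow_left₀ hD0.le h6 6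
      _ = _ := by rw [← pow_mul, ← pow_mul, Nat.mul_comm]
  have h8 : ((2 : ℝ) * 3 ^ 6) ^ D = (2 * 3 ^ 6) * (((2 : ℝ) * 3 ^ 6) ^ 2) ^ j := by
    rw [hD, pow_succ, pow_mul]
    ring
  rw [h8]
  obtain ⟨i, rfl⟩ : ∃ i, j = i + 1 := ⟨j - 1, by omega⟩
  calc (D : ℝ) ^ 6 * ((2 * 3 ^ 6) * (((2 : ℝ) * 3 ^ 6) ^ 2) ^ (i + 1))
      ≤ (3 ^ 6) ^ (i + 1) * ((2 * 3 ^ 6) * (((2 : ℝ) * 3 ^ 6) ^ 2) ^ (i + 1)) := by gcongr
    _ = (3 ^ 6 * (2 * 3 ^ 6) * ((2 : ℝ) * 3 ^ 6) ^ 2) * ((3 : ℝ) ^ 6 * ((2 : ℝ) * 3 ^ 6) ^ 2) ^ i := by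
        have key : ∀ A B C : ℝ, A ^ (i + 1) * (B * C ^ (i + 1)) = (A * B * C) * (A * C) ^ i := by
          intro A B C
          rw [mul_pow]
          ring
        exact key _ _ _
    _ < (10 ^ 13) * ((3 : ℝ) ^ 6 * ((2 : ℝ) * 3 ^ 6) ^ 2) ^ i := by
        apply mul_lt_mul_of_pos_right _ (by positivity)
        norm_num
    _ ≤ (10 ^ 13) * (10 ^ 13) ^ i := by
        apply mul_le_mul_of_nonneg_left _ (by positivity)
        apply pow_le_pow_left₀ (by positivity)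
        norm_num
    _ = _ := by ring

lemma decrease (j : ℕ) (hj : 1 ≤ j) :
    seq (2 * j + 2) ^ (2 * j + 1) < seq (2 * j + 1) ^ (2 * j + 2) := by
  have h1 : phi (2 * j + 2) = ((2 * j + 1 : ℕ) : ℝ) ^ 6 * phi (2 * j + 1) := by
    unfold phi
    have h1 : 2 * j + 2 - 1 = 2 * j + 1 := by omega
    have h2 : 2 * j + 1 - 1 = 2 * j := by omega
    have h3 : (2 * j + 1) / 2 = j := by omega
    have h4 : 2 * j / 2 = j := by omega
    rw [h1, h2, h3, h4, Nat.factorial_succ]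
    push_cast
    ring
  have h2 := phi_le_seq (2 * j + 1) (by omega)
  have h3 : seq (2 * j + 2) ≤ 2 * ((2 * j + 1 : ℕ) : ℝ) ^ 6 * seq (2 * j + 1) := by
    have h4 := seq_le (2 * j + 2) (by omega)
    have h5 : (2 - 1 / ((2 * j + 2 : ℕ) : ℝ)) * phi (2 * j + 2) ≤ 2 * phi (2 * j + 2) := by
      have := phi_pos (2 * j + 2)
      have h3 : 0 ≤ 1 / ((2 * j + 2 : ℕ) : ℝ) := by positivity
      nlinarith
    have h6 : 2 * ((2 * j + 1 : ℕ) : ℝ) ^ 6 * phi (2 * j + 1) ≤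
        2 * ((2 * j + 1 : ℕ) : ℝ) ^ 6 * seq (2 * j + 1) :=
      mul_le_mul_of_nonneg_left h2 (by positivity)
    rw [h1] at h5 h4
    linarith
  have h4 := growth j hj
  have h5 := phi_pos (2 * j + 1)
  calc seq (2 * j + 2) ^ (2 * j + 1)
      ≤ (2 * ((2 * j + 1 : ℕ) : ℝ) ^ 6 * seq (2 * j + 1)) ^ (2 * j + 1) :=
        pow_le_pow_left₀ (seq_nonneg _) h3 _
    _ = (2 * ((2 * j + 1 : ℕ) : ℝ) ^ 6) ^ (2 * j + 1) * seq (2 * j + 1) ^ (2 * j + 1) := by
        rw [mul_pow]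
    _ < seq (2 * j + 1) * seq (2 * j + 1) ^ (2 * j + 1) := by
        apply mul_lt_mul_of_pos_right (lt_of_lt_of_le h4 h2)
        exact pow_pos (lt_of_lt_of_le h5 h2) _
    _ = seq (2 * j + 1) ^ (2 * j + 2) := by
        rw [pow_succ _ (2 * j + 1)]
        ring

lemma decrease' (j : ℕ) (hj : 1 ≤ j) :
    seq (2 * j + 1 + 1) ^ ((1 : ℝ) / ((2 * j + 1 + 1 : ℕ) : ℝ)) <
      seq (2 * j + 1) ^ ((1 : ℝ) / ((2 * j + 1 : ℕ) : ℝ)) := by
  have h := decrease j hj
  set a := seq (2 * j + 1 + 1) with ha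
  set b := seq (2 * j + 1) with hb
  have ha0 : 0 ≤ a := seq_nonneg _
  have hb0 : 0 ≤ b := seq_nonneg _
  have hlt : ((a ^ (2 * j + 1) : ℝ)) ^ ((1 : ℝ) / (((2 * j + 1) * (2 * j + 2) : ℕ) : ℝ)) <
      ((b ^ (2 * j + 2) : ℝ)) ^ ((1 : ℝ) / (((2 * j + 1) * (2 * j + 2) : ℕ) : ℝ)) := by
    apply Real.rpow_lt_rpow (by positivity) h
    positivity
  rw [← Real.rpow_natCast, ← Real.rpow_natCast, ← Real.rpow_mul ha0, ← Real.rpow_mul hb0] at hlt
  have e1 : ((2 * j + 1 : ℕ) : ℝ) * ((1 : ℝ) / (((2 * j + 1) * (2 * j + 2) : ℕ) : ℝ)) =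
      (1 : ℝ) / ((2 * j + 1 + 1 : ℕ) : ℝ) := by
    push_cast
    field_simp
    ring
  have e2 : ((2 * j + 2 : ℕ) : ℝ) * ((1 : ℝ) / (((2 * j + 1) * (2 * j + 2) : ℕ) : ℝ)) =
      (1 : ℝ) / ((2 * j + 1 : ℕ) : ℝ) := by
    push_cast
    field_simp
  rwa [e1, e2] at hlt

/-! ### The rational function -/

open MvPolynomial in
/-- the polynomial `P` in the second variable -/
noncomputable def PP : MvPolynomial (Fin 2) ℚ := C (10 ^ 13) * (X 1 * (X 1 + 1)) ^ 6

open MvPolynomial in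
/-- the second factor of the denominator -/
noncomputable def QQ : MvPolynomial (Fin 2) ℚ := 1 + (X 0 - 2) ^ 2 * (2 * PP - 1)

open MvPolynomial in
/-- the numerator -/
noncomputable def num : MvPolynomial (Fin 2) ℚ := X 0 * X 1 * QQ + PP * (X 0 + X 1)

open MvPolynomial in
/-- the denominator -/
noncomputable def den : MvPolynomial (Fin 2) ℚ := (X 0 + X 1) * QQ

lemma eval_PP (a b : ℚ) : MvPolynomial.eval ![a, b] PP = 10 ^ 13 * (b * (b + 1)) ^ 6 := by
  simp [PP]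

lemma eval_QQ (a b : ℚ) : MvPolynomial.eval ![a, b] QQ =
    1 + (a - 2) ^ 2 * (2 * (10 ^ 13 * (b * (b + 1)) ^ 6) - 1) := by
  simp [QQ, eval_PP]

lemma eval_QQ_real (a b : ℚ) : ((MvPolynomial.eval ![a, b] QQ : ℚ) : ℝ) =
    1 + ((a : ℝ) - 2) ^ 2 * (2 * P (b : ℝ) - 1) := by
  rw [eval_QQ]
  unfold P
  push_cast
  ring

lemma eval_den (a b : ℚ) : MvPolynomial.eval ![a, b] den =
    (a + b) * MvPolynomial.eval ![a, b] QQ := by
  simp [den]

lemma eval_num (a b : ℚ) : MvPolynomial.eval ![a, b] num =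
    a * b * MvPolynomial.eval ![a, b] QQ + (10 ^ 13 * (b * (b + 1)) ^ 6) * (a + b) := by
  simp [num, eval_PP]

lemma val_eq (a b : ℕ) (ha : 1 ≤ a) (hb : 1 ≤ b) : val num den a b = g a b := by
  unfold val g
  rw [eval_num, eval_den]
  have hb' : (1 : ℝ) ≤ (b : ℝ) := by exact_mod_cast hb
  have ha' : (1 : ℝ) ≤ (a : ℝ) := by exact_mod_cast ha
  have hq := eval_QQ_real (a : ℚ) (b : ℚ)
  have hd := den_pos (a : ℝ) hb'
  push_cast at hq ⊢
  rw [hq]
  have h1 : (1 + ((a : ℝ) - 2) ^ 2 * (2 * P (b : ℝ) - 1)) ≠ 0 := by linarith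
  have h2 : (a : ℝ) + b ≠ 0 := by linarith
  have h3 : (10 : ℝ) ^ 13 * ((b : ℝ) * (b + 1)) ^ 6 = P (b : ℝ) := rfl
  rw [h3]
  field_simp

lemma den_ne (a b : ℕ) (ha : 1 ≤ a) (hb : 1 ≤ b) :
    MvPolynomial.eval ![(a : ℚ), (b : ℚ)] den ≠ 0 := by
  have hb' : (1 : ℝ) ≤ (b : ℝ) := by exact_mod_cast hb
  have ha' : (1 : ℝ) ≤ (a : ℝ) := by exact_mod_cast ha
  have hq := eval_QQ_real (a : ℚ) (b : ℚ)
  have hd := den_pos (a : ℝ) hb'
  push_cast at hq
  rw [eval_den]
  apply mul_ne_zero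
  · have : (0 : ℚ) < (a : ℚ) + b := by
      have : 0 < a := ha
      positivity
    exact this.ne'
  · intro h0
    rw [h0] at hq
    push_cast at hq
    linarith

lemma tendsto_val : Tendsto (fun x : ℕ × ℕ =>
      val num den x.1 x.2 / (((x.1 : ℝ) * (x.2 : ℝ) / ((x.1 : ℝ) + (x.2 : ℝ))) ^ (1 : ℝ)))
      (atTop ×ˢ atTop) (𝓝 1) := by
  have hlow : ∀ᶠ x : ℕ × ℕ in atTop ×ˢ atTop, 3 ≤ x.1 ∧ 3 ≤ x.2 := by
    have h1 : ∀ᶠ a : ℕ in atTop, 3 ≤ a := eventually_ge_atTop 3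
    exact h1.prod_mk h1
  have hbound : ∀ᶠ x : ℕ × ℕ in atTop ×ˢ atTop,
      1 ≤ val num den x.1 x.2 / (((x.1 : ℝ) * (x.2 : ℝ) / ((x.1 : ℝ) + (x.2 : ℝ))) ^ (1 : ℝ)) ∧
      val num den x.1 x.2 / (((x.1 : ℝ) * (x.2 : ℝ) / ((x.1 : ℝ) + (x.2 : ℝ))) ^ (1 : ℝ)) ≤
        1 + ((x.1 : ℝ) - 2)⁻¹ := by
    filter_upwards [hlow] with x hx
    obtain ⟨a, b⟩ := x
    obtain ⟨ha, hb⟩ := hx
    dsimp only at ha hb ⊢
    have ha' : (3 : ℝ) ≤ (a : ℝ) := by exact_mod_cast ha
    have hb' : (3 : ℝ) ≤ (b : ℝ) := by exact_mod_cast hb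
    rw [Real.rpow_one, val_eq a b (by omega) (by omega)]
    have hm : 1 ≤ (a : ℝ) * b / (a + b) := by
      rw [le_div_iff₀ (by linarith)]
      nlinarith
    have hsq : 1 ≤ ((a : ℝ) - 2) ^ 2 := by nlinarith
    have hx := extra_le (a := (a : ℝ)) (b := (b : ℝ)) (by linarith) hsq
    have hx0 : 0 ≤ P (b : ℝ) / (1 + ((a : ℝ) - 2) ^ 2 * (2 * P (b : ℝ) - 1)) := by
      have h1 := P_ge (b := (b : ℝ)) (by linarith)
      have h2 := den_pos (a : ℝ) (b := (b : ℝ)) (by linarith)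
      exact div_nonneg (by linarith) (by linarith)
    unfold g
    constructor
    · rw [le_div_iff₀ (by linarith)]
      linarith
    · rw [div_le_iff₀ (by linarith)]
      have h3 : 1 / ((a : ℝ) - 2) ^ 2 ≤ ((a : ℝ) - 2)⁻¹ := by
        rw [← one_div]
        apply one_div_le_one_div_of_le (by linarith)
        nlinarith
      have h4 : 0 ≤ ((a : ℝ) - 2)⁻¹ := by
        apply inv_nonneg.mpr
        linarith
      nlinarith
  have hlim : Tendsto (fun x : ℕ × ℕ => 1 + ((x.1 : ℝ) - 2)⁻¹) (atTop ×ˢ atTop) (𝓝 1) := by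
    have h1 : Tendsto (fun a : ℕ => (a : ℝ) - 2) atTop atTop :=
      tendsto_atTop_add_const_right _ (-2) tendsto_natCast_atTop_atTop
    have h2 : Tendsto (fun a : ℕ => 1 + ((a : ℝ) - 2)⁻¹) atTop (𝓝 (1 + 0)) :=
      tendsto_const_nhds.add (tendsto_inv_atTop_zero.comp h1)
    rw [add_zero] at h2
    exact h2.comp tendsto_fst
  exact tendsto_of_tendsto_of_tendsto_of_le_of_le' tendsto_const_nhds hlim
    (hbound.mono fun x hx => hx.1) (hbound.mono fun x hx => hx.2)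

lemma admissible : Admissible num den := by
  refine ⟨den_ne, ?_, 1, one_pos, 1, one_pos, tendsto_val⟩
  intro a b ha hb
  rw [val_eq a b ha hb]
  exact g_pos (by exact_mod_cast ha) (by exact_mod_cast hb)

lemma recursion : Recursion (val num den) seq := by
  intro d hd
  rw [seq_rec d hd]
  refine Finset.sum_congr rfl fun i hi => ?_
  rw [Finset.mem_Ico] at hi
  rw [val_eq i (d - i) hi.1 (by omega)]

/-- **The `d`-th roots of convolution recursions need not be eventually increasing.**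
There is an admissible rational function `p / q` and a sequence `n` with `n 1 > 0`
satisfying the recursion such that the `(d + 1)`-st root of `n (d + 1)` is smaller
than the `d`-th root of `n d` for infinitely many `d` (namely for all odd `d ≥ 3`). -/
theorem result :
    ∃ p q : MvPolynomial (Fin 2) ℚ, Admissible p q ∧
      ∃ n : ℕ → ℝ, 0 < n 1 ∧ Recursion (val p q) n ∧
        ∀ N : ℕ, ∃ d, N ≤ d ∧
          n (d + 1) ^ ((1 : ℝ) / ((d + 1 : ℕ) : ℝ)) < n d ^ ((1 : ℝ) / (d : ℝ)) := by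
  refine ⟨num, den, admissible, seq, ?_, recursion, ?_⟩
  · rw [seq_one]; norm_num
  · intro N
    exact ⟨2 * (N + 1) + 1, by omega, decrease' (N + 1) (by omega)⟩

end Pool.Agent.Results.MP_0f9b8a_co.ParityEffect
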